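import Pool.Agent.T9h9.SP.Defs
import Pool.Agent.T9h43.LW.Open
import Pool.Agent.TH80.CLX.Fam

/-!
# Project SP: FLOW, the changes of the height on the sphere
-/

set_option autoImplicit false

open scoped Manifold ContDiff Topology
open Filter Set Metric

namespace Pool.Agent.T9h85.SP

open Pool.Agent.H718R2.G Pool.Agent.TH80.OMS Pool.Agent.Y504.CO Pool.Agent.Y318.MN
open Pool.Agent.T9h9.SP

theorem u_mem (y : S2) : u y ∈ Icc (-1 : ℝ) 1 ∧ y.1 0 ^ 2 + y.1 1 ^ 2 + u y ^ 2 = 1 := by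
  have h1 : ‖(y.1 : EuclideanSpace ℝ (Fin 3))‖ = 1 := by
    have := y.2
    rwa [mem_sphere_zero_iff_norm] at this
  have h2 : y.1 0 ^ 2 + y.1 1 ^ 2 + u y ^ 2 = 1 := by
    have h3 := EuclideanSpace.norm_sq_eq y.1
    rw [h1, Fin.sum_univ_three] at h3
    simp only [Real.norm_eq_abs, sq_abs] at h3
    unfold u
    linarith
  refine ⟨⟨?_, ?_⟩, h2⟩ <;> nlinarith [sq_nonneg (y.1 0), sq_nonneg (y.1 1)]

local instance instFact3 : Fact (Module.finrank ℝ (EuclideanSpace ℝ (Fin 3)) = 2 + 1) :=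
  ⟨@finrank_euclideanSpace_fin ℝ _ (2 + 1)⟩

theorem coe_smooth : ContMDiff (𝓡 2) 𝓘(ℝ, EuclideanSpace ℝ (Fin 3)) ∞
    (fun y : S2 => (y : EuclideanSpace ℝ (Fin 3))) :=
  contMDiff_coe_sphere (E := EuclideanSpace ℝ (Fin 3)) (n := 2)

/-- the square of the factor of the first two coordinates -/
noncomputable def gg (b : ℝ → ℝ) (q : ℝ × ℝ) : ℝ :=
  1 - 2 * q.2 * q.1 * b q.2 - q.1 ^ 2 * b q.2 ^ 2 * (1 - q.2 ^ 2)

theorem gg_pos {b : ℝ → ℝ} {B ε : ℝ} (hB : ∀ z ∈ Icc (-1 : ℝ) 1, |b z| ≤ B)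
    (hεB : ε * B ≤ 1 / 4) (hε : 0 ≤ ε) {t z : ℝ} (ht : |t| ≤ ε) (hz : z ∈ Icc (-1 : ℝ) 1) :
    0 < gg b (t, z) := by
  have h1 : |t * b z| ≤ 1 / 4 := by
    rw [abs_mul]
    calc |t| * |b z| ≤ ε * B := mul_le_mul ht (hB z hz) (abs_nonneg _) hε
      _ ≤ 1 / 4 := hεB
  have h2 : |z * (t * b z)| ≤ 1 / 4 := by
    rw [abs_mul]
    calc |z| * |t * b z| ≤ 1 * (1 / 4) := mul_le_mul (abs_le.2 hz) h1 (abs_nonneg _) zero_le_one
      _ = 1 / 4 := by norm_num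
  have h3 : (t * b z) ^ 2 ≤ (1 / 4) ^ 2 := sq_le_sq' (by linarith [neg_abs_le (t * b z)])
    ((le_abs_self _).trans h1)
  have h4 : (t * b z) ^ 2 * (1 - z ^ 2) ≤ (1 / 4) ^ 2 * 1 := by
    apply mul_le_mul h3 (by nlinarith [sq_nonneg z]) _ (by norm_num)
    nlinarith [hz.1, hz.2]
  have h5 := le_abs_self (z * (t * b z))
  unfold gg
  simp only
  nlinarith

/-- the moved point -/
noncomputable def vec (b θ : ℝ → ℝ) (p : ℝ × S2) : EuclideanSpace ℝ (Fin 3) :=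
  √(gg b (θ p.1, u p.2)) • p.2.1 +
    (phi b (θ p.1) (u p.2) - √(gg b (θ p.1, u p.2)) * u p.2) • EuclideanSpace.single (2 : Fin 3) (1 : ℝ)

theorem vec_norm {b θ : ℝ → ℝ} (hg : ∀ p : ℝ × S2, 0 < gg b (θ p.1, u p.2)) (p : ℝ × S2) :
    vec b θ p ∈ sphere (0 : EuclideanSpace ℝ (Fin 3)) 1 := by
  rw [mem_sphere_zero_iff_norm]
  have h0 := (u_mem p.2).2
  have h3 := EuclideanSpace.norm_sq_eq (vec b θ p)
  rw [Fin.sum_univ_three] at h3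
  simp only [Real.norm_eq_abs, sq_abs] at h3
  have e0 : vec b θ p 0 = √(gg b (θ p.1, u p.2)) * p.2.1 0 := by
    simp [vec]
  have e1 : vec b θ p 1 = √(gg b (θ p.1, u p.2)) * p.2.1 1 := by
    simp [vec]
  have e2 : vec b θ p 2 = phi b (θ p.1) (u p.2) := by
    simp [vec, u]
  rw [e0, e1, e2] at h3
  have h4 : √(gg b (θ p.1, u p.2)) ^ 2 = gg b (θ p.1, u p.2) := Real.sq_sqrt (hg p).le
  have h5 : ‖vec b θ p‖ ^ 2 = 1 := by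
    rw [h3, mul_pow, mul_pow, h4]
    have h6 : p.2.1 0 ^ 2 + p.2.1 1 ^ 2 = 1 - u p.2 ^ 2 := by linarith
    have h7 : gg b (θ p.1, u p.2) * p.2.1 0 ^ 2 + gg b (θ p.1, u p.2) * p.2.1 1 ^ 2 =
        gg b (θ p.1, u p.2) * (1 - u p.2 ^ 2) := by rw [← h6]; ring
    rw [h7]
    unfold gg phi
    ring
  have h6 := norm_nonneg (vec b θ p)
  nlinarith

theorem vec_smooth {b θ : ℝ → ℝ} (hb : ContDiff ℝ ∞ b) (hθ : ContDiff ℝ ∞ θ)
    (hg : ∀ p : ℝ × S2, 0 < gg b (θ p.1, u p.2)) :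
    ContMDiff (𝓘(ℝ, ℝ).prod (𝓡 2)) 𝓘(ℝ, EuclideanSpace ℝ (Fin 3)) ∞ (vec b θ) := by
  have h1 : ContMDiff (𝓘(ℝ, ℝ).prod (𝓡 2)) 𝓘(ℝ, EuclideanSpace ℝ (Fin 3)) ∞
      (fun p : ℝ × S2 => (p.2 : EuclideanSpace ℝ (Fin 3))) :=
    coe_smooth.comp contMDiff_snd
  have h2 : ContMDiff (𝓘(ℝ, ℝ).prod (𝓡 2)) 𝓘(ℝ, ℝ) ∞ (fun p : ℝ × S2 => u p.2) :=
    (EuclideanSpace.proj (2 : Fin 3) : EuclideanSpace ℝ (Fin 3) →L[ℝ] ℝ).contMDiff.comp h1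
  have h3 : ContMDiff (𝓘(ℝ, ℝ).prod (𝓡 2)) 𝓘(ℝ, ℝ) ∞ (fun p : ℝ × S2 => θ p.1) :=
    hθ.contMDiff.comp contMDiff_fst
  have h4 : ContMDiff (𝓘(ℝ, ℝ).prod (𝓡 2)) 𝓘(ℝ, ℝ × ℝ) ∞
      (fun p : ℝ × S2 => (θ p.1, u p.2)) := h3.prodMk_space h2
  have h5 : ContDiff ℝ ∞ (gg b) := by
    unfold gg
    fun_prop
  have h6 : ContMDiff (𝓘(ℝ, ℝ).prod (𝓡 2)) 𝓘(ℝ, ℝ) ∞
      (fun p : ℝ × S2 => √(gg b (θ p.1, u p.2))) := by
    intro p
    have h7 : ContMDiffAt (𝓘(ℝ, ℝ).prod (𝓡 2)) 𝓘(ℝ, ℝ) ∞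
      (fun p : ℝ × S2 => gg b (θ p.1, u p.2)) p := (h5.contMDiff.comp h4) p
    exact (Real.contDiffAt_sqrt (hg p).ne').contMDiffAt.comp p h7
  have h7 : ContMDiff (𝓘(ℝ, ℝ).prod (𝓡 2)) 𝓘(ℝ, ℝ) ∞
      (fun p : ℝ × S2 => phi b (θ p.1) (u p.2)) := by
    have h8 : ContDiff ℝ ∞ (fun q : ℝ × ℝ => phi b q.1 q.2) := by
      unfold phi
      fun_prop
    exact h8.contMDiff.comp h4
  have h8 := h6.smul h1
  have h9 : ContMDiff (𝓘(ℝ, ℝ).prod (𝓡 2)) 𝓘(ℝ, ℝ) ∞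
      (fun p : ℝ × S2 => phi b (θ p.1) (u p.2) - √(gg b (θ p.1, u p.2)) * u p.2) := by
    have ha : ContDiff ℝ ∞ (fun q : (ℝ × ℝ) × ℝ => q.1.1 - q.1.2 * q.2) := by fun_prop
    exact ha.contMDiff.comp ((h7.prodMk_space h6).prodMk_space h2)
  have h10 : ContMDiff (𝓘(ℝ, ℝ).prod (𝓡 2)) 𝓘(ℝ, EuclideanSpace ℝ (Fin 3)) ∞
      (fun _ : ℝ × S2 => EuclideanSpace.single (2 : Fin 3) (1 : ℝ)) := contMDiff_const
  exact h8.add (h9.smul h10)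

theorem flow : S_FLOW := by
  intro r hr F U hU hFU b hb
  obtain ⟨B, hB⟩ := (isCompact_Icc (a := (-1 : ℝ)) (b := 1)).exists_bound_of_continuousOn
    (hb.continuous.continuousOn)
  have hB0 : 0 ≤ B := (norm_nonneg _).trans (hB 0 (by norm_num))
  obtain ⟨ε, hε0, hεB⟩ : ∃ ε : ℝ, 0 < ε ∧ ε * B ≤ 1 / 4 := by
    refine ⟨1 / (4 * (B + 1)), by positivity, ?_⟩
    rw [div_mul_eq_mul_div, div_le_iff₀ (by positivity)]
    linarith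
  let θ : ℝ → ℝ := fun s => ε * Real.sin s
  have hθ : ContDiff ℝ ∞ θ := contDiff_const.mul Real.contDiff_sin
  have hθle : ∀ s, |θ s| ≤ ε := by
    intro s
    show |ε * Real.sin s| ≤ ε
    rw [abs_mul, abs_of_pos hε0]
    have := Real.abs_sin_le_one s
    nlinarith
  have hg : ∀ p : ℝ × S2, 0 < gg b (θ p.1, u p.2) := fun p =>
    gg_pos hB hεB hε0.le (hθle p.1) (u_mem p.2).1
  let Φ : ℝ × S2 → S2 := Set.codRestrict (vec b θ) _ (vec_norm hg)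
  have hΦ : ContMDiff (𝓘(ℝ, ℝ).prod (𝓡 2)) (𝓡 2) ∞ Φ :=
    ContMDiff.codRestrict_sphere (n := 2) (vec_smooth hb hθ hg) (vec_norm hg)
  have hΦr : ContMDiff (𝓘(ℝ, ℝ).prod (𝓡 2)) (𝓡 2) r Φ := hΦ.of_le (by exact_mod_cast le_top)
  have hP : ContMDiff (𝓘(ℝ, ℝ).prod (𝓡 2)) (𝓡 2) r (fun p => F (Φ p)) :=
    F.contMDiff_toFun.comp hΦr
  have hu : ∀ p, u (Φ p) = phi b (θ p.1) (u p.2) := by
    intro p
    show vec b θ p 2 = _
    simp [vec, u]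
  have hθ0 : θ 0 = 0 := by simp [θ]
  have hP0 : ∀ y, (fun p => F (Φ p)) (0, y) = F y := by
    intro y
    show F (Φ (0, y)) = F y
    congr 1
    apply Subtype.ext
    show vec b θ (0, y) = y.1
    have h1 : gg b (0, u y) = 1 := by simp [gg]
    have h2 : phi b 0 (u y) = u y := by simp [phi]
    simp only [vec, hθ0, h1, h2, Real.sqrt_one, one_smul, one_mul, sub_self, zero_smul, add_zero]
  obtain ⟨κ, H, hκ, hfam, h0, hH⟩ := Pool.Agent.T9h43.LW.open' 2 S2 r hr ℝ (fun p => F (Φ p)) F 1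
    one_pos (fun s y _ => hP (s, y)) hP0
  let N0 : S2 := ⟨EuclideanSpace.single (0 : Fin 3) (1 : ℝ), by simp⟩
  obtain ⟨κ', hκ', hmem⟩ := Pool.Agent.TH80.CLX.fam_mem r hr H hfam N0 U hU (h0.symm ▸ hFU)
  have hc : Tendsto (fun τ : ℝ => Real.arcsin (τ / ε)) (𝓝 0) (𝓝 0) := by
    have h1 : Continuous (fun τ : ℝ => Real.arcsin (τ / ε)) :=
      Real.continuous_arcsin.comp (continuous_id.div_const ε)
    have h2 := h1.tendsto 0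
    simpa using h2
  have h1 : ∀ᶠ τ : ℝ in 𝓝 0, ‖Real.arcsin (τ / ε)‖ < min κ κ' := by
    have h2 := hc.eventually (Metric.ball_mem_nhds (0 : ℝ) (lt_min hκ hκ'))
    filter_upwards [h2] with τ hτ
    exact (mem_ball_zero_iff (r := min κ κ')).1 hτ
  rw [Metric.eventually_nhds_iff] at h1
  obtain ⟨t₀, ht₀, h2⟩ := h1
  refine ⟨min t₀ ε, lt_min ht₀ hε0, ?_⟩
  intro τ hτ
  have hτ1 : |τ| < t₀ := hτ.trans_le (min_le_left _ _)
  have hτ2 : |τ| < ε := hτ.trans_le (min_le_right _ _)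
  have h3 := h2 (y := τ) (by simpa using hτ1)
  have hs : θ (Real.arcsin (τ / ε)) = τ := by
    show ε * Real.sin (Real.arcsin (τ / ε)) = τ
    rw [abs_lt] at hτ2
    rw [Real.sin_arcsin]
    · field_simp
    · rw [le_div_iff₀ hε0]; linarith
    · rw [div_le_iff₀ hε0]; linarith
  refine ⟨H (Real.arcsin (τ / ε)), hmem _ (h3.trans_le (min_le_right _ _)),
    fun y => Φ (Real.arcsin (τ / ε), y), ?_, ?_⟩
  · intro y
    exact hH _ (h3.trans_le (min_le_left _ _)) y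
  · intro y
    rw [hu]
    show phi b (θ (Real.arcsin (τ / ε))) (u y) = phi b τ (u y)
    rw [hs]

end Pool.Agent.T9h85.SP
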